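import Pool.Agent.R719.WF.Rinv
import Pool.Agent.R719.LF.Main

set_option autoImplicit false
set_option linter.unusedSectionVars false

/-! Weighted dominance for quadratic forms over integral group rings. -/

namespace Pool.Agent.R719.WF

open Matrix TH57.Thr TH6.LF TH6.CX Pool.Agent.Y75.Th Pool.Agent.Y35.KC.TTm Pool.Agent.R719.DD
  Pool.Agent.R719.WD Pool.Agent.R719.LF

variable {Γ : Type} [Group Γ] {κ μ ι : Type} [Fintype κ] [DecidableEq κ] [Fintype μ]
  [DecidableEq μ] [Fintype ι] [DecidableEq ι]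

/-- a form whose symmetrisation is integral is equivalent to an integral one -/
theorem evenM (htf : ∀ g : Γ, g * g = 1 → g = 1) {ε : ℤ} (hε : ε = 1 ∨ ε = -1)
    (x : Matrix μ μ (MonoidAlgebra ℤ Γ)) (hx : ∀ i j g, g ≠ 1 → (lam ε x i j).coeff g = 0) :
    ∃ (Q : Matrix μ μ ℤ) (χ : Matrix μ μ (MonoidAlgebra ℤ Γ)),
      x = Q.map (fun n => MonoidAlgebra.single 1 n) + (χ - ε • adj χ) := by
  classical
  have hd : ∀ i, ∃ (q : ℤ) (χ : MonoidAlgebra ℤ Γ),
      x i i = MonoidAlgebra.single 1 q + (χ - ε • bar χ) := by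
    intro i
    obtain ⟨a, χ, -, -, h3⟩ := skew_red htf hε (x i i - MonoidAlgebra.single 1 ((x i i).coeff 1)) (by
      ext g
      have h1 := hx i i g
      rw [lam_apply] at h1
      by_cases hg : g = 1
      · subst hg
        have e1 : (bar (x i i - MonoidAlgebra.single 1 ((x i i).coeff 1))).coeff (1 : Γ) = 0 := by
          rw [coeff_bar, inv_one]
          simp
        change (x i i - MonoidAlgebra.single 1 ((x i i).coeff 1)).coeff 1
          + (ε • bar (x i i - MonoidAlgebra.single 1 ((x i i).coeff 1))).coeff 1 = 0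
        rw [coeff_zs, e1]
        simp
      · have e1 := h1 hg
        change (x i i).coeff g + (ε • bar (x i i)).coeff g = 0 at e1
        rw [coeff_zs, coeff_bar] at e1
        change (x i i - MonoidAlgebra.single 1 ((x i i).coeff 1)).coeff g
          + (ε • bar (x i i - MonoidAlgebra.single 1 ((x i i).coeff 1))).coeff g = 0
        rw [coeff_zs, coeff_bar]
        have e2 : (MonoidAlgebra.single (1 : Γ) ((x i i).coeff 1)).coeff g = 0 := by
          rw [MonoidAlgebra.coeff_single, Finsupp.single_apply, if_neg (Ne.symm hg)]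
        have e3 : (MonoidAlgebra.single (1 : Γ) ((x i i).coeff 1)).coeff g⁻¹ = 0 := by
          rw [MonoidAlgebra.coeff_single, Finsupp.single_apply,
            if_neg (fun h => hg (by rw [← inv_inv g, ← h, inv_one]))]
        have e4 : ∀ h : Γ, (x i i - MonoidAlgebra.single 1 ((x i i).coeff 1)).coeff h
            = (x i i).coeff h - (MonoidAlgebra.single (1 : Γ) ((x i i).coeff 1)).coeff h :=
          fun _ => rfl
        rw [e4, e4, e2, e3, sub_zero, sub_zero]
        exact e1)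
    refine ⟨(x i i).coeff 1 + a, χ, ?_⟩
    rw [MonoidAlgebra.single_add, add_assoc, ← h3]
    abel
  choose q χ hq using hd
  let f := Fintype.equivFin μ
  refine ⟨fun i j => if f j < f i then 0 else if i = j then q i else (lam ε x i j).coeff 1,
    fun i j => if f j < f i then x i j else if i = j then χ i else 0, ?_⟩
  ext1 i j
  change x i j = MonoidAlgebra.single 1 (if f j < f i then 0 else if i = j then q i
      else (lam ε x i j).coeff 1)
    + ((if f j < f i then x i j else if i = j then χ i else 0)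
      - ε • bar (if f i < f j then x j i else if j = i then χ j else 0))
  rcases lt_trichotomy (f i) (f j) with h | h | h
  · have hne : i ≠ j := fun hh => by rw [hh] at h; exact lt_irrefl _ h
    rw [if_neg (not_lt.2 h.le), if_neg hne, if_neg (not_lt.2 h.le), if_neg hne, if_pos h]
    have e1 : MonoidAlgebra.single 1 ((lam ε x i j).coeff 1) = lam ε x i j := by
      ext g
      by_cases hg : g = 1
      · subst hg; simp
      · rw [hx i j g hg, MonoidAlgebra.coeff_single, Finsupp.single_apply, if_neg (Ne.symm hg)]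
    rw [e1, lam_apply]
    abel
  · have hij : i = j := f.injective h
    subst hij
    simp only [lt_irrefl, if_false, if_true]
    exact hq i
  · have hne : j ≠ i := fun hh => by rw [hh] at h; exact lt_irrefl _ h
    rw [if_pos h, if_pos h, if_neg (not_lt.2 h.le), if_neg hne, bar_zero, smul_zero, sub_zero,
      MonoidAlgebra.single_zero, zero_add]

theorem lam_blocks (ε : ℤ) (ψ : Matrix (ι ⊕ κ) (ι ⊕ κ) (MonoidAlgebra ℤ Γ)) :
    lam ε ψ = fromBlocks (lam ε ψ.toBlocks₁₁) (ψ.toBlocks₁₂ + ε • adj ψ.toBlocks₂₁)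
      (ψ.toBlocks₂₁ + ε • adj ψ.toBlocks₁₂) (lam ε ψ.toBlocks₂₂) := by
  conv_lhs => rw [← fromBlocks_toBlocks ψ]
  unfold lam
  rw [adj_fromBlocks, fromBlocks_smul, fromBlocks_add]

/-- metabolic forms -/
theorem planeM {ε : ℤ} (ψ : Matrix (μ ⊕ μ) (μ ⊕ μ) (MonoidAlgebra ℤ Γ))
    (B : (Matrix μ μ (MonoidAlgebra ℤ Γ))ˣ) (hB : TT (TU Γ) B)
    (D : Matrix μ μ (MonoidAlgebra ℤ Γ))
    (h : lam ε ψ = fromBlocks 0 B.val (ε • adj B.val) D) :
    ∃ ψ2, Iso ε ψ ψ2 ∧ lam ε ψ2 = fromBlocks 0 1 (ε • 1) 0 := by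
  obtain ⟨E1, hE1, hE2⟩ := TT_blocks (TU Γ) (1 : (Matrix μ μ (MonoidAlgebra ℤ Γ))ˣ) (adU μ B)
    (TT_one _) (TT_adU B hB)
  rw [adU_val, Units.val_one] at hE1
  set Y := adj B⁻¹.val with hY
  have hYB : Y * adj B.val = 1 := by rw [hY, ← adj_mul, B.mul_inv, adj_one]
  set ψ1 := E1.val * ψ * adj E1.val with hψ1
  have hl1 : lam ε ψ1 = fromBlocks 0 1 (ε • 1) (Y * D * adj Y) := by
    rw [hψ1, lam_conj, h, hE1, adj_fromBlocks, adj_one, adj_zero, fromBlocks_multiply,
      fromBlocks_multiply]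
    simp only [Matrix.one_mul, Matrix.zero_mul, Matrix.mul_zero, add_zero, zero_add,
      Matrix.mul_one, Matrix.mul_smul, hYB, smul_zero]
    rw [hY, adj_adj, B.mul_inv]
  have hb := lam_blocks ε ψ1
  rw [hl1, fromBlocks_inj] at hb
  obtain ⟨-, -, -, hb4⟩ := hb
  set d := ψ1.toBlocks₂₂ with hd
  obtain ⟨E2, hF1, hF2⟩ := El_unit (R := MonoidAlgebra ℤ Γ)
    (fromBlocks 1 0 (-d) 1 : Matrix (μ ⊕ μ) (μ ⊕ μ) (MonoidAlgebra ℤ Γ)) (by
    have h3 : (fromBlocks 1 0 (-d) 1 : Matrix (μ ⊕ μ) (μ ⊕ μ) (MonoidAlgebra ℤ Γ))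
        = 1 + fromBlocks 0 0 (-d) 0 := by
      rw [← fromBlocks_one, fromBlocks_add]; simp
    rw [h3]
    exact el_unip (Finset.univ.filter fun v : μ ⊕ μ => v.isRight) _ (by
      rintro (i | i) (j | j) h <;> simp at h ⊢))
  have i1 : Iso ε ψ ψ1 := ⟨E1, 0, hE2, by rw [adj_zero, smul_zero, sub_zero, add_zero]⟩
  have i2 : Iso ε ψ1 (E2.val * ψ1 * adj E2.val) :=
    ⟨E2, 0, hF2 _, by rw [adj_zero, smul_zero, sub_zero, add_zero]⟩
  refine ⟨E2.val * ψ1 * adj E2.val, i1.trans i2, ?_⟩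
  · rw [lam_conj, hl1, hF1, adj_fromBlocks, adj_one, adj_zero, adj_neg, fromBlocks_multiply,
      fromBlocks_multiply]
    simp only [Matrix.one_mul, Matrix.zero_mul, Matrix.mul_zero, add_zero, zero_add,
      Matrix.mul_one, Matrix.mul_neg, Matrix.smul_mul, neg_zero]
    congr 1
    rw [hb4]
    unfold lam
    abel

/-- choosing one element in each pair of inverse elements -/
theorem exists_half (htf : ∀ g : Γ, g * g = 1 → g = 1) :
    ∃ d : Γ → Γ, ∀ c, d c * (d c⁻¹)⁻¹ = c := by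
  classical
  refine ⟨fun c => if WellOrderingRel c c⁻¹ then c else 1, fun c => ?_⟩
  dsimp only
  rw [inv_inv]
  by_cases hc : c = 1
  · subst hc; simp
  · have hne : c ≠ c⁻¹ := fun h => hc (htf c (by nth_rewrite 2 [h]; exact mul_inv_cancel c))
    rcases trichotomous_of WellOrderingRel c c⁻¹ with h | h | h
    · rw [if_pos h, if_neg (asymm_of WellOrderingRel h)]
      simp
    · exact absurd h hne
    · rw [if_neg (asymm_of WellOrderingRel h), if_pos h]
      simp

/-- weighted dominance at symmetric positions -/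
structure WDomF (ε : ℤ) (ψ : Matrix κ κ (MonoidAlgebra ℤ Γ)) (σ : κ → κ) (γ : κ → Γ) (s : κ → ℤ)
    (p : κ → ℝ) : Prop where
  invol : ∀ i, σ (σ i) = i
  inv : ∀ i, γ (σ i) = (γ i)⁻¹
  sgn : ∀ i, s i * s i = 1
  pos : ∀ i, 0 < p i
  dom : ∀ i, ∑ j, (l1 (lam ε ψ i j) : ℝ) * p j
    ≤ 2 * ((s i * (lam ε ψ i (σ i)).coeff (γ i) : ℤ) : ℝ) * p (σ i)

section main

variable {ε : ℤ} {ψ : Matrix κ κ (MonoidAlgebra ℤ Γ)} {σ : κ → κ} {γ : κ → Γ} {s : κ → ℤ}
  {p : κ → ℝ}

/-- the entries `λ_{i, σ l} γ_l⁻¹` form a weighted dominated matrix -/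
theorem exists_blk (h : WDomF ε ψ σ γ s p) (hu : IsUnit (lam ε ψ)) :
    ∃ (A G : Matrix κ κ (MonoidAlgebra ℤ Γ)),
      (∀ k l, A k l = lam ε ψ k (σ l) * MonoidAlgebra.single (γ l)⁻¹ (s l)) ∧ A * G = 1 ∧
      Blk A := by
  obtain ⟨L, hL⟩ := hu
  let eσ : κ ≃ κ := ⟨σ, σ, h.invol, h.invol⟩
  let P := pu (R := MonoidAlgebra ℤ Γ) eσ * dgs (fun l => (γ l)⁻¹) s h.sgn
  have hP : ∀ m l, P.val m l = if σ m = l then MonoidAlgebra.single (γ l)⁻¹ (s l) else 0 := by
    intro m l
    rw [Units.val_mul]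
    change (((1 : Matrix κ κ (MonoidAlgebra ℤ Γ)).submatrix eσ id)
      * Matrix.diagonal (fun l => MonoidAlgebra.single (γ l)⁻¹ (s l))) m l = _
    rw [Matrix.mul_diagonal]
    change (1 : Matrix κ κ (MonoidAlgebra ℤ Γ)) (σ m) l * _ = _
    by_cases hml : σ m = l
    · rw [if_pos hml, hml, Matrix.one_apply_eq, one_mul]
    · rw [if_neg hml, Matrix.one_apply_ne hml, zero_mul]
  have hA : ∀ k l, (L * P).val k l
      = lam ε ψ k (σ l) * MonoidAlgebra.single (γ l)⁻¹ (s l) := by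
    intro k l
    rw [Units.val_mul, hL, Matrix.mul_apply, Finset.sum_eq_single (σ l)]
    · rw [hP, h.invol, if_pos rfl]
    · intro m _ hm
      rw [hP, if_neg (fun hh => hm (by rw [← hh, h.invol])), mul_zero]
    · intro hh; exact absurd (Finset.mem_univ _) hh
  have hl1 : ∀ k l, l1 ((L * P).val k l) = l1 (lam ε ψ k (σ l)) := by
    intro k l
    rw [hA, Pool.Agent.R719.LF.l1_mul_single' _ _ (h.sgn l)]
  have hW : WDom (L * P).val (fun l => p (σ l)) := by
    refine ⟨fun l => h.pos _, fun k => ?_⟩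
    have e1 : ((L * P).val k k).coeff 1 = s k * (lam ε ψ k (σ k)).coeff (γ k) := by
      rw [hA, MonoidAlgebra.coeff_mul_single_apply, inv_inv, one_mul, mul_comm]
    rw [e1]
    simp only [hl1]
    have e2 := eσ.sum_comp (fun m => (l1 (lam ε ψ k m) : ℝ) * p m)
    exact le_trans (le_of_eq e2) (h.dom k)
  exact ⟨(L * P).val, (L * P)⁻¹.val, hA, (L * P).mul_inv, (TT_wdom' _ κ rfl (L * P) _ hW).2⟩

theorem mul_single_ne (x : MonoidAlgebra ℤ Γ) (g : Γ) (s : ℤ) (hs : s * s = 1) (hx : x ≠ 0) :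
    x * MonoidAlgebra.single g s ≠ 0 := by
  intro h
  apply hx
  calc x = x * (MonoidAlgebra.single g s * MonoidAlgebra.single g⁻¹ s) := by
        rw [MonoidAlgebra.single_mul_single, mul_inv_cancel, hs, ← MonoidAlgebra.one_def, mul_one]
    _ = 0 := by rw [← mul_assoc, h, zero_mul]

/-- the index sets: `r i < r (σ i)`, its image under `σ`, and the rest -/
def eqv (σ : κ → κ) (hσ : ∀ i, σ (σ i) = i) (r : κ → ℕ) :
    ({i // r i < r (σ i)} ⊕ {i // r i < r (σ i)}) ⊕ {i // r i = r (σ i)} ≃ κ where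
  toFun := Sum.elim (Sum.elim (fun i => i.1) (fun i => σ i.1)) (fun i => i.1)
  invFun k := if h1 : r k < r (σ k) then Sum.inl (Sum.inl ⟨k, h1⟩)
    else if h2 : r (σ k) < r k then Sum.inl (Sum.inr ⟨σ k, by rw [hσ]; exact h2⟩)
    else Sum.inr ⟨k, by omega⟩
  left_inv := by
    rintro ((⟨i, hi⟩ | ⟨i, hi⟩) | ⟨i, hi⟩)
    · simp [hi]
    · have h1 : ¬ r (σ i) < r (σ (σ i)) := by rw [hσ]; omega
      have h2 : r (σ (σ i)) < r (σ i) := by rw [hσ]; exact hi
      exact (dif_neg h1).trans ((dif_pos h2).trans (by simp [hσ]))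
    · have h1 : ¬ r i < r (σ i) := by omega
      have h2 : ¬ r (σ i) < r i := by omega
      exact (dif_neg h1).trans (dif_neg h2)
  right_inv := by
    intro k
    dsimp only
    split_ifs with h1 h2
    · rfl
    · exact hσ k
    · rfl

/-- **Weighted dominated quadratic forms are integral.** -/
theorem wmain (htf : ∀ g : Γ, g * g = 1 → g = 1) (hε : ε = 1 ∨ ε = -1)
    (h : WDomF ε ψ σ γ s p) (hu : IsUnit (lam ε ψ)) :
    ∃ Q : Matrix κ κ ℤ, Iso ε ψ (Q.map (fun n => MonoidAlgebra.single 1 n)) := by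
  classical
  have hεε : ε * ε = 1 := by rcases hε with rfl | rfl <;> norm_num
  obtain ⟨A, G, hA, hAG, r, w, hr, hw⟩ := exists_blk h hu
  set L := lam ε ψ with hLdef
  have hsym : ∀ i j, bar (L i j) = ε • L j i := lam_symm ε hεε ψ
  have hsym' : ∀ i j, ε • bar (L i j) = L j i := by
    intro i j
    rw [hsym, smul_smul, hεε, one_smul]
  have hzero : ∀ i j, L i j = 0 → L j i = 0 := by
    intro i j hij
    rw [← hsym', hij, bar_zero, smul_zero]
  -- positions
  have hz : ∀ i m, L i m ≠ 0 → r (σ m) ≤ r i := by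
    intro i m him
    by_contra hlt
    have h1 := hr i (σ m) (not_le.1 hlt)
    rw [hA, h.invol] at h1
    exact mul_single_ne _ _ _ (h.sgn _) him h1
  have hz' : ∀ i m, L i m ≠ 0 → r (σ i) ≤ r m := by
    intro i m him
    exact hz m i (fun h1 => him (hzero m i h1))
  -- supports
  have hs1 : ∀ i m, r i = r (σ m) → ∀ g, (L i m).coeff g ≠ 0 →
      g = w i * (w (σ m))⁻¹ * (γ m)⁻¹ := by
    intro i m him g hg
    have h1 : (A i (σ m)).coeff (g * γ m) ≠ 0 := by
      rw [hA, h.invol, h.inv, inv_inv, MonoidAlgebra.coeff_mul_single_apply, mul_inv_cancel_right]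
      intro h2
      rcases mul_eq_zero.1 h2 with h3 | h3
      · exact hg h3
      · have := h.sgn (σ m)
        rw [h3] at this
        simp at this
    have h2 := hw i (σ m) him _ h1
    rw [← h2, mul_inv_cancel_right]
  have hs2 : ∀ i m, r m = r (σ i) → ∀ g, (L i m).coeff g ≠ 0 →
      g = γ i * w (σ i) * (w m)⁻¹ := by
    intro i m him g hg
    have h1 : (L m i).coeff g⁻¹ ≠ 0 := by
      rw [← hsym' i m, coeff_zs, coeff_bar, inv_inv]
      intro h2
      rcases mul_eq_zero.1 h2 with h3 | h3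
      · rw [h3] at hεε; simp at hεε
      · exact hg h3
    have h2 := hs1 m i him _ h1
    rw [← inv_inv g, h2]
    group
  let c : κ → Γ := fun i => (w i)⁻¹ * γ i * w (σ i)
  have hc1 : ∀ i, c (σ i) = (c i)⁻¹ := by
    intro i
    simp only [c]
    rw [h.invol, h.inv]
    group
  -- the blocks
  let N := {i // r i < r (σ i)}
  let Z := {i // r i = r (σ i)}
  let e : (N ⊕ N) ⊕ Z ≃ κ := eqv σ h.invol r
  set φ := ψ.submatrix e e with hφ
  have hlφ : lam ε φ = L.submatrix e e := rfl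
  have n1 : ∀ n m : N, L n m = 0 := by
    intro n m
    by_contra h1
    have := hz _ _ h1
    have := hz' _ _ h1
    have := n.2
    have := m.2
    omega
  have n2 : ∀ (n : N) (z : Z), L n z = 0 := by
    intro n z
    by_contra h1
    have := hz _ _ h1
    have := hz' _ _ h1
    have := n.2
    have := z.2
    omega
  have n3 : ∀ (n : N) (z : Z), L z n = 0 := fun n z => hzero _ _ (n2 n z)
  -- the block `B`
  obtain ⟨UX, hUX, hTX⟩ := rinv_blk _ N rfl (A.submatrix Subtype.val Subtype.val)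
    (G.submatrix Subtype.val Subtype.val) ⟨fun n => r n, fun n => w n, fun i j => hr i j,
      fun i j => hw i j⟩ (by
    ext1 n m
    have h1 := congrFun (congrFun hAG n) m
    rw [Matrix.mul_apply] at h1
    rw [Matrix.mul_apply]
    have h2 : ∀ k, ¬ (r k < r (σ k)) → A n k * G k m = 0 := by
      intro k hk
      have h3 : L n (σ k) = 0 := by
        by_contra h4
        have h5 := hz _ _ h4
        rw [h.invol] at h5
        have := hz' _ _ h4
        have := n.2
        omega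
      rw [hA, h3, zero_mul, zero_mul]
    have h3 := Fintype.sum_subtype_add_sum_subtype (fun k => r k < r (σ k))
      (fun k => A n k * G k m)
    have h4 : ∑ k : {k // ¬ r k < r (σ k)}, A n k * G k m = 0 :=
      Finset.sum_eq_zero fun k _ => h2 k k.2
    rw [h4, add_zero] at h3
    refine h3.trans (h1.trans ?_)
    by_cases hnm : n = m
    · subst hnm
      rw [Matrix.one_apply_eq, Matrix.one_apply_eq]
    · rw [Matrix.one_apply_ne hnm, Matrix.one_apply_ne (fun hh => hnm (Subtype.ext hh))])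
  have hsN : ∀ n : N, s n * s n = 1 := fun n => h.sgn n
  let BU : (Matrix N N (MonoidAlgebra ℤ Γ))ˣ := UX * dgs (fun n : N => γ n) (fun n => s n) hsN
  have hBU : ∀ n m : N, BU.val n m = L n (σ m) := by
    intro n m
    rw [Units.val_mul, hUX]
    change ((A.submatrix Subtype.val Subtype.val
      * Matrix.diagonal (fun n : N => MonoidAlgebra.single (γ n) (s n)) :
        Matrix N N (MonoidAlgebra ℤ Γ))) n m = _
    rw [Matrix.mul_diagonal]
    change A n m * _ = _
    rw [hA, mul_assoc, MonoidAlgebra.single_mul_single, inv_mul_cancel, h.sgn,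
      ← MonoidAlgebra.one_def, mul_one]
  have hBT : TT (TU Γ) BU := TT_mul _ _ _ hTX (TT_of_mem _ _ (dgs_mem _ _ _))
  let D : Matrix N N (MonoidAlgebra ℤ Γ) := fun n m => L (σ n) (σ m)
  have h11 : (lam ε φ).toBlocks₁₁ = fromBlocks 0 BU.val (ε • adj BU.val) D := by
    ext1 x y
    rcases x with x | x <;> rcases y with y | y
    · exact n1 x y
    · exact (hBU x y).symm
    · change L (σ x) y = ε • bar (BU.val y x)
      rw [hBU, hsym']
    · rfl
  let B' : Matrix (N ⊕ N) (N ⊕ N) (MonoidAlgebra ℤ Γ) :=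
    fromBlocks (-(ε • (adj BU⁻¹.val * D * BU⁻¹.val))) (ε • adj BU⁻¹.val) BU⁻¹.val 0
  have a1 : adj BU.val * adj BU⁻¹.val = 1 := by rw [← adj_mul, BU.inv_mul, adj_one]
  have a2 : adj BU⁻¹.val * adj BU.val = 1 := by rw [← adj_mul, BU.mul_inv, adj_one]
  have hB1 : (lam ε φ).toBlocks₁₁ * B' = 1 := by
    rw [h11, fromBlocks_multiply, ← fromBlocks_one, fromBlocks_inj]
    refine ⟨?_, ?_, ?_, ?_⟩
    · rw [Matrix.zero_mul, zero_add, BU.mul_inv]
    · rw [Matrix.zero_mul, Matrix.mul_zero, add_zero]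
    · rw [Matrix.mul_neg, Matrix.smul_mul, Matrix.mul_smul, smul_smul, hεε, one_smul,
        Matrix.mul_assoc (adj BU⁻¹.val), ← Matrix.mul_assoc (adj BU.val), a1, Matrix.one_mul,
        neg_add_cancel]
    · rw [Matrix.mul_zero, add_zero, Matrix.smul_mul, Matrix.mul_smul, smul_smul, hεε, one_smul,
        a1]
  have hB2 : B' * (lam ε φ).toBlocks₁₁ = 1 := by
    rw [h11, fromBlocks_multiply, ← fromBlocks_one, fromBlocks_inj]
    refine ⟨?_, ?_, ?_, ?_⟩
    · rw [Matrix.mul_zero, zero_add, Matrix.smul_mul, Matrix.mul_smul, smul_smul, hεε, one_smul,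
        a2]
    · rw [Matrix.neg_mul, Matrix.smul_mul, Matrix.mul_assoc _ BU⁻¹.val, BU.inv_mul,
        Matrix.mul_one, Matrix.smul_mul, neg_add_cancel]
    · rw [Matrix.mul_zero, Matrix.zero_mul, add_zero]
    · rw [Matrix.zero_mul, add_zero, BU.inv_mul]
  obtain ⟨ψ', hψ1, hψ2, -⟩ := Iso.split hεε φ B' hB1 hB2
  have hl' : ∀ z z' : Z, lam ε ψ' z z' = L z z' := by
    intro z z'
    refine (congrFun (congrFun hψ2 z) z').trans ?_
    rw [Matrix.sub_apply]
    have h1 : ((lam ε φ).toBlocks₂₁ * B' * (lam ε φ).toBlocks₁₂) z z' = 0 := by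
      rw [Matrix.mul_apply, Fintype.sum_sum_type]
      have h2 : ∀ n : N, (lam ε φ).toBlocks₁₂ (Sum.inl n) z' = 0 := fun n => n2 n z'
      have h3 : ∀ n : N, ((lam ε φ).toBlocks₂₁ * B') z (Sum.inr n) = 0 := by
        intro n
        rw [Matrix.mul_apply, Fintype.sum_sum_type]
        have h4 : ∀ m : N, (lam ε φ).toBlocks₂₁ z (Sum.inl m) = 0 := fun m => n3 m z
        have h5 : ∀ m : N, B' (Sum.inr m) (Sum.inr n) = 0 := fun m => rfl
        simp only [h4, h5, zero_mul, mul_zero, Finset.sum_const_zero, add_zero]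
      simp only [h2, h3, zero_mul, mul_zero, Finset.sum_const_zero, add_zero]
    rw [h1, sub_zero]
    rfl
  -- the first part
  obtain ⟨ψ2, i1, hlψ2⟩ := planeM φ.toBlocks₁₁ BU hBT D (by
    have h1 := lam_blocks ε φ
    rw [← fromBlocks_toBlocks (lam ε φ), fromBlocks_inj] at h1
    rw [← h1.1, h11])
  -- the second part
  obtain ⟨d, hd⟩ := exists_half htf
  have hone : ∀ _ : Z, (1 : ℤ) * 1 = 1 := fun _ => one_mul 1
  let u : Z → Γ := fun z => w z * d (c z)
  let U := dgs (fun z => (u z)⁻¹) (fun _ => 1) hone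
  set ψ3 := U.val * ψ' * adj U.val with hψ3
  have i2 : Iso ε ψ' ψ3 := ⟨U, 0, TT_of_mem _ _ (dgs_mem _ _ _), by
    rw [adj_zero, smul_zero, sub_zero, add_zero]⟩
  have hl3 : ∀ (i m : Z) (g : Γ), g ≠ 1 → (lam ε ψ3 i m).coeff g = 0 := by
    intro i m g hg
    by_contra h1
    have h2 : lam ε ψ3 i m = MonoidAlgebra.single (u i)⁻¹ 1 * L i m
        * MonoidAlgebra.single (u m) 1 := by
      rw [hψ3, lam_conj]
      have h3 : adj U.val = Matrix.diagonal (fun z => MonoidAlgebra.single (u z) (1 : ℤ)) := by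
        ext1 x y
        rw [adj_apply]
        change bar (Matrix.diagonal (fun z => MonoidAlgebra.single (u z)⁻¹ (1 : ℤ)) y x) = _
        by_cases hxy : x = y
        · subst hxy
          rw [Matrix.diagonal_apply_eq, Matrix.diagonal_apply_eq, bar_single, inv_inv]
        · rw [Matrix.diagonal_apply_ne _ (Ne.symm hxy), Matrix.diagonal_apply_ne _ hxy, bar_zero]
      rw [h3, Matrix.mul_diagonal]
      change (Matrix.diagonal (fun z => MonoidAlgebra.single (u z)⁻¹ (1 : ℤ)) * lam ε ψ' :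
        Matrix Z Z (MonoidAlgebra ℤ Γ)) i m * _ = _
      rw [Matrix.diagonal_mul, hl']
    rw [h2, MonoidAlgebra.coeff_mul_single_apply, MonoidAlgebra.coeff_single_mul_apply, inv_inv,
      one_mul, mul_one] at h1
    have hne : L i m ≠ 0 := by
      intro h3
      rw [h3] at h1
      exact h1 rfl
    have q1 := hz _ _ hne
    have q2 := hz' _ _ hne
    have q3 := i.2
    have q4 := m.2
    have e1 := hs1 i m (by omega) _ h1
    have e2 := hs2 i m (by omega) _ h1
    have e3 : w i * c i * (w m)⁻¹ = γ i * w (σ i) * (w m)⁻¹ := by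
      simp only [c]; group
    have e4 : w i * (c m)⁻¹ * (w m)⁻¹ = w i * (w (σ m))⁻¹ * (γ m)⁻¹ := by
      simp only [c]; group
    have e5 : c m = (c i)⁻¹ := by
      have h5 : w i * (c m)⁻¹ * (w m)⁻¹ = w i * c i * (w m)⁻¹ := by
        rw [e3, e4, ← e1, ← e2]
      have h6 := mul_left_cancel (mul_right_cancel h5)
      rw [← h6, inv_inv]
    apply hg
    have e6 : u i * (g * (u m)⁻¹) = w i * c i * (w m)⁻¹ := by rw [e2, e3]
    have e7 : g = (u i)⁻¹ * (w i * c i * (w m)⁻¹) * u m := by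
      rw [← e6]; group
    rw [e7]
    simp only [u]
    rw [e5]
    nth_rewrite 2 [← hd (c i)]
    group
  -- assembling
  have i3 : Iso ε φ (fromBlocks ψ2 0 0 ψ3) := hψ1.trans (i1.blocks i2)
  obtain ⟨Q, χ, hQ⟩ := evenM htf hε (fromBlocks ψ2 0 0 ψ3 :
      Matrix ((N ⊕ N) ⊕ Z) ((N ⊕ N) ⊕ Z) (MonoidAlgebra ℤ Γ)) (by
    intro i j g hg
    have h1 : lam ε (fromBlocks ψ2 0 0 ψ3 :
        Matrix ((N ⊕ N) ⊕ Z) ((N ⊕ N) ⊕ Z) (MonoidAlgebra ℤ Γ))
        = fromBlocks (lam ε ψ2) 0 0 (lam ε ψ3) := by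
      rw [lam_blocks]
      simp [adj_zero]
    rw [h1, hlψ2]
    have h01 : ∀ x y : N, ((1 : Matrix N N (MonoidAlgebra ℤ Γ)) x y).coeff g = 0 := by
      intro x y
      by_cases hxy : x = y
      · rw [hxy, Matrix.one_apply_eq, MonoidAlgebra.one_def, MonoidAlgebra.coeff_single,
          Finsupp.single_apply, if_neg (Ne.symm hg)]
      · rw [Matrix.one_apply_ne hxy]; rfl
    rcases i with (i | i) | i <;> rcases j with (j | j) | j
    · rfl
    · exact h01 i j
    · rfl
    · change (ε • (1 : Matrix N N (MonoidAlgebra ℤ Γ)) i j).coeff g = 0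
      rw [coeff_zs, h01, mul_zero]
    · rfl
    · rfl
    · rfl
    · rfl
    · exact hl3 i j g hg)
  have i4 : Iso ε φ (Q.map (fun n => MonoidAlgebra.single 1 n)) := by
    refine i3.trans ⟨1, χ, TT_one _, ?_⟩
    rw [Units.val_one, adj_one, Matrix.one_mul, Matrix.mul_one]
    exact hQ
  have i5 := i4.reindex e.symm
  refine ⟨Q.submatrix e.symm e.symm, ?_⟩
  have h5 : φ.submatrix e.symm e.symm = ψ := by
    ext1 x y
    change ψ (e (e.symm x)) (e (e.symm y)) = ψ x y
    rw [Equiv.apply_symm_apply, Equiv.apply_symm_apply]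
  rw [h5] at i5
  exact i5

end main

end Pool.Agent.R719.WF
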