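import Pool.Agent.R719.WD.Hol

set_option autoImplicit false
set_option linter.unusedSectionVars false

/-! Block triangular matrices with integral diagonal blocks: a right inverse is an inverse. -/

namespace Pool.Agent.R719.WF

open Matrix TH57.Thr TH6.LF TH6.CX Pool.Agent.Y75.Th Pool.Agent.Y35.KC.TTm Pool.Agent.R719.DD
  Pool.Agent.R719.WD

variable {Γ : Type} [Group Γ]

/-- lower block triangular units -/
def ltu {R : Type} [Ring R] {κ μ : Type} [Fintype κ] [DecidableEq κ] [Fintype μ] [DecidableEq μ]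
    (a : (Matrix κ κ R)ˣ) (b : (Matrix μ μ R)ˣ) (c : Matrix μ κ R) :
    (Matrix (κ ⊕ μ) (κ ⊕ μ) R)ˣ where
  val := fromBlocks a.val 0 c b.val
  inv := fromBlocks a⁻¹.val 0 (-(b⁻¹.val * c * a⁻¹.val)) b⁻¹.val
  val_inv := by
    have h1 : b.val * -(b⁻¹.val * c * a⁻¹.val) = -(c * a⁻¹.val) := by
      rw [Matrix.mul_neg, Matrix.mul_assoc b⁻¹.val, ← Matrix.mul_assoc b.val, b.mul_inv,
        Matrix.one_mul]
    rw [fromBlocks_multiply, ← fromBlocks_one, a.mul_inv, b.mul_inv, h1, add_neg_cancel]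
    simp only [Matrix.zero_mul, Matrix.mul_zero, add_zero, zero_add]
  inv_val := by
    rw [fromBlocks_multiply, ← fromBlocks_one, a.inv_mul, b.inv_mul, Matrix.neg_mul,
      Matrix.mul_assoc (b⁻¹.val * c), a.inv_mul, Matrix.mul_one, neg_add_cancel]
    simp only [Matrix.zero_mul, Matrix.mul_zero, add_zero, zero_add]

/-- block triangular matrices with a right inverse are invertible and stably trivial -/
theorem rinv_blk :
    ∀ (n : ℕ) (κ : Type) [Fintype κ] [DecidableEq κ], Fintype.card κ = n →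
    ∀ (X Y : Matrix κ κ (MonoidAlgebra ℤ Γ)), Blk X → X * Y = 1 →
      ∃ U : (Matrix κ κ (MonoidAlgebra ℤ Γ))ˣ, U.val = X ∧ TT (TU Γ) U := by
  intro n
  induction n using Nat.strong_induction_on with
  | _ n ih =>
  intro κ _ _ hn X Y hX hXY
  classical
  by_cases hne : Nonempty κ
  swap
  · have hκ : IsEmpty κ := not_nonempty_iff.1 hne
    refine ⟨1, ?_, TT_one _⟩
    ext1 i
    exact isEmptyElim i
  obtain ⟨r, w, hr, hw⟩ := hX
  obtain ⟨i₀, -, hi₀⟩ := Finset.exists_min_image Finset.univ r Finset.univ_nonempty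
  let C : κ → Prop := fun i => r i = r i₀
  have hC1 : C i₀ := rfl
  have hlt : ∀ i, ¬ C i → r i₀ < r i := fun i hi =>
    lt_of_le_of_ne (hi₀ i (Finset.mem_univ _)) (fun h => hi h.symm)
  let e : {k // C k} ⊕ {k // ¬ C k} ≃ κ := Equiv.sumCompl C
  let A1 : Matrix {k // C k} {k // C k} (MonoidAlgebra ℤ Γ) := X.submatrix Subtype.val Subtype.val
  let A3 : Matrix {k // ¬ C k} {k // C k} (MonoidAlgebra ℤ Γ) :=
    X.submatrix Subtype.val Subtype.val
  let A4 : Matrix {k // ¬ C k} {k // ¬ C k} (MonoidAlgebra ℤ Γ) :=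
    X.submatrix Subtype.val Subtype.val
  have hXe : X.submatrix e e = fromBlocks A1 0 A3 A4 := by
    ext1 x y
    rcases x with x | x <;> rcases y with y | y
    · rfl
    · refine hr x y ?_
      have h1 : r x = r i₀ := x.2
      have h2 := hlt y y.2
      omega
    · rfl
    · rfl
  set G' := Y.submatrix e e with hG'
  have hm1 : fromBlocks A1 0 A3 A4 * fromBlocks G'.toBlocks₁₁ G'.toBlocks₁₂ G'.toBlocks₂₁
      G'.toBlocks₂₂ = 1 := by
    rw [fromBlocks_toBlocks, ← hXe, hG', Matrix.submatrix_mul_equiv, hXY,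
      Matrix.submatrix_one_equiv]
  rw [fromBlocks_multiply, ← fromBlocks_one, fromBlocks_inj] at hm1
  obtain ⟨m11, m12, m13, m14⟩ := hm1
  rw [Matrix.zero_mul, add_zero] at m11 m12
  have he : ∀ _ : {k // C k}, (1 : ℤ) * 1 = 1 := fun _ => one_mul 1
  let W := dgs (fun k : {k // C k} => w k) (fun _ => 1) he
  obtain ⟨U1, hU1, hU2⟩ := unit_of_trivial (W⁻¹.val * A1 * W.val)
    (W⁻¹.val * G'.toBlocks₁₁ * W.val) (by
      intro i j x hx
      rw [dgs_conj A1 (fun k : {k // C k} => w k) he i j x] at hx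
      have h0 : r i = r j := (show r i = r i₀ from i.2).trans (show r i₀ = r j from j.2.symm)
      have h1 := hw i j h0 _ hx
      have h2 := mul_right_cancel h1
      exact mul_eq_left.1 h2) (by
      calc W⁻¹.val * A1 * W.val * (W⁻¹.val * G'.toBlocks₁₁ * W.val)
          = W⁻¹.val * A1 * (W.val * W⁻¹.val) * G'.toBlocks₁₁ * W.val := by
            simp only [Matrix.mul_assoc]
        _ = W⁻¹.val * (A1 * G'.toBlocks₁₁) * W.val := by
            rw [W.mul_inv, Matrix.mul_one, Matrix.mul_assoc W⁻¹.val A1]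
        _ = 1 := by rw [m11, Matrix.mul_one, W.inv_mul])
  have ha1 : (W * U1 * W⁻¹).val = A1 := by
    rw [Units.val_mul, Units.val_mul, hU1]
    calc W.val * (W⁻¹.val * A1 * W.val) * W⁻¹.val
        = (W.val * W⁻¹.val) * A1 * (W.val * W⁻¹.val) := by simp only [Matrix.mul_assoc]
      _ = A1 := by rw [W.mul_inv, Matrix.one_mul, Matrix.mul_one]
  have hWT : TT (TU Γ) W := TT_of_mem _ _ (dgs_mem _ _ _)
  have ht1 : TT (TU Γ) (W * U1 * W⁻¹) :=
    TT_mul _ _ _ (TT_mul _ _ _ hWT hU2) (TT_inv _ _ hWT)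
  have hG2 : G'.toBlocks₁₂ = 0 := by
    calc G'.toBlocks₁₂ = ((W * U1 * W⁻¹)⁻¹.val * (W * U1 * W⁻¹).val) * G'.toBlocks₁₂ := by
          rw [Units.inv_mul, Matrix.one_mul]
      _ = 0 := by rw [Matrix.mul_assoc, ha1, m12, Matrix.mul_zero]
  rw [hG2, Matrix.mul_zero, zero_add] at m14
  have hcard : Fintype.card {k // ¬ C k} < n := by
    rw [← hn]
    exact Fintype.card_subtype_lt (x := i₀) (fun hh => hh hC1)
  obtain ⟨U4, hU4, ht4⟩ := ih _ hcard _ rfl A4 G'.toBlocks₂₂
    ⟨fun k => r k, fun k => w k, fun i j h => hr i j h, fun i j h => hw i j h⟩ m14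
  set U := W * U1 * W⁻¹ with hU
  let Z := ltu U U4 A3
  have htZ : TT (TU Γ) Z := TT_tri (TU Γ) U U4 A3 Z rfl ht1 ht4
  refine ⟨Units.map (re e.symm) Z, ?_, TT_re _ _ _ htZ⟩
  change (fromBlocks U.val 0 A3 U4.val).submatrix e.symm e.symm = X
  rw [ha1, hU4, ← hXe]
  ext1 x y
  change X (e (e.symm x)) (e (e.symm y)) = X x y
  rw [Equiv.apply_symm_apply, Equiv.apply_symm_apply]

end Pool.Agent.R719.WF
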